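import Mathlib

/-!
# A toric Bayesian network whose non-sink subgraph is not perfect

The network on the vertices `1, 2, 3, 4` with the edges `1 → 3, 2 → 3, 1 → 4, 2 → 4, 3 → 4` and
binary random variables is toric: its prime ideal is generated by one quadric, the determinant
`s₁₁ s₂₂ - s₁₂ s₂₁` of the four linear forms `s_ij = ∑_{k, l} x_ijkl`. Its only sink is `4`, and its
non-sink subgraph `1 → 3 ← 2` is not perfect.
-/

set_option autoImplicit false

open MvPolynomial

namespace Pool.Agent.Results.MP_52d0c2_ag.ToricNotPerfect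

/-- A Bayesian network: a directed acyclic graph on `Fin n` whose edges `i → j` satisfy `i < j`,
and numbers `κ i ≥ 2` of states. -/
structure BayesNet (n : ℕ) where
  /-- there is an edge `i → j` -/
  E : Fin n → Fin n → Prop
  lt_of_edge : ∀ i j, E i j → i < j
  /-- the number of states of vertex `i` -/
  κ : Fin n → ℕ
  two_le : ∀ i, 2 ≤ κ i

namespace BayesNet

variable {n : ℕ} (G : BayesNet n)

/-- The joint states `u`, the index set of the variables `x_u`. -/
abbrev State : Type := ∀ i : Fin n, Fin (G.κ i)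

/-- The states of the parents of `j`. -/
abbrev ParentState (j : Fin n) : Type := ∀ i : {i // G.E i j}, Fin (G.κ i.1)

/-- The index set of the parameters `θ_{j,k,a}`. -/
abbrev Param : Type := Σ j : Fin n, Fin (G.κ j) × G.ParentState j

/-- The polynomial ring `ℝ[Θ, z]`; the variable `none` is `z`. -/
abbrev ParamRing : Type := MvPolynomial (Option G.Param) ℝ

/-- The ideal `J` generated by the polynomials `∑_k θ_{j,k,a} - z`. -/
noncomputable def sumIdeal : Ideal G.ParamRing :=
  Ideal.span {f | ∃ (j : Fin n) (a : G.ParentState j),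
    f = ∑ k : Fin (G.κ j), X (some ⟨j, k, a⟩) - X none}

/-- The monomial `∏_j θ_{j, u_j, u_Pa(j)}`. -/
noncomputable def paramMonomial (u : G.State) : G.ParamRing :=
  ∏ j : Fin n, X (some ⟨j, u j, fun i => u i.1⟩)

/-- The homomorphism `ℝ[x] → ℝ[Θ, z] / J`. -/
noncomputable def phi : MvPolynomial G.State ℝ →ₐ[ℝ] G.ParamRing ⧸ G.sumIdeal :=
  aeval fun u => Ideal.Quotient.mk G.sumIdeal (G.paramMonomial u)

/-- The prime ideal `P_G` of the network. -/
noncomputable def primeIdeal : Ideal (MvPolynomial G.State ℝ) := RingHom.ker G.phi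

/-- The vertex `i` is not a sink. -/
def NonSink (i : Fin n) : Prop := ∃ j, G.E i j

/-- The induced subgraph on the non-sinks is perfect: for every non-sink `j`, any two distinct
parents of `j` in this subgraph are adjacent. -/
def NonSinkPerfect : Prop :=
  ∀ i k j : Fin n, G.NonSink i → G.NonSink k → G.NonSink j → G.E i j → G.E k j → i ≠ k →
    G.E i k ∨ G.E k i

end BayesNet

/-- A toric ideal: a prime ideal generated by differences of monomials. -/
def IsToricIdeal {V : Type} (I : Ideal (MvPolynomial V ℝ)) : Prop :=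
  I.IsPrime ∧ ∃ S : Set (MvPolynomial V ℝ), I = Ideal.span S ∧
    ∀ f ∈ S, ∃ a b : V →₀ ℕ, f = monomial a 1 - monomial b 1

/-- `G` is toric: `P_G` becomes a toric ideal after an invertible linear change of variables, that
is, after an algebra automorphism which maps every variable to a linear form. -/
def BayesNet.IsToric {n : ℕ} (G : BayesNet n) : Prop :=
  ∃ e : MvPolynomial G.State ℝ ≃ₐ[ℝ] MvPolynomial G.State ℝ,
    (∀ u, (e (X u)).IsHomogeneous 1) ∧ IsToricIdeal (G.primeIdeal.map (RingHomClass.toRingHom e))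

/-- The network with the edges `0 → 2, 1 → 2, 0 → 3, 1 → 3, 2 → 3` and binary variables. -/
abbrev G : BayesNet 4 where
  E i j := i < j ∧ ¬ (i = 0 ∧ j = 1)
  lt_of_edge _ _ h := h.1
  κ _ := 2
  two_le _ := le_rfl

abbrev V : Type := Fin 4 → Fin 2

/-- sum of the other three variables of a block -/
noncomputable def rest (i j : Fin 2) : MvPolynomial V ℝ :=
  X ![i, j, 0, 1] + X ![i, j, 1, 0] + X ![i, j, 1, 1]

noncomputable def fw (u : V) : MvPolynomial V ℝ :=
  if u 2 = 0 ∧ u 3 = 0 then X u - rest (u 0) (u 1) else X u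

noncomputable def bw (u : V) : MvPolynomial V ℝ :=
  if u 2 = 0 ∧ u 3 = 0 then X u + rest (u 0) (u 1) else X u

theorem fw_rest (i j : Fin 2) : aeval fw (rest i j) = rest i j := by
  simp [rest, fw]

theorem bw_rest (i j : Fin 2) : aeval bw (rest i j) = rest i j := by
  simp [rest, bw]

/-- the linear change of variables -/
noncomputable def e : MvPolynomial V ℝ ≃ₐ[ℝ] MvPolynomial V ℝ :=
  AlgEquiv.ofAlgHom (aeval fw) (aeval bw)
    (by
      apply MvPolynomial.algHom_ext
      intro u
      rw [AlgHom.comp_apply, aeval_X]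
      by_cases hu : u 2 = 0 ∧ u 3 = 0
      · rw [bw, if_pos hu, map_add, fw_rest, aeval_X, fw, if_pos hu, AlgHom.id_apply]
        ring
      · rw [bw, if_neg hu, aeval_X, fw, if_neg hu, AlgHom.id_apply])
    (by
      apply MvPolynomial.algHom_ext
      intro u
      rw [AlgHom.comp_apply, aeval_X]
      by_cases hu : u 2 = 0 ∧ u 3 = 0
      · rw [fw, if_pos hu, map_sub, bw_rest, aeval_X, bw, if_pos hu, AlgHom.id_apply]
        ring
      · rw [fw, if_neg hu, aeval_X, bw, if_neg hu, AlgHom.id_apply])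

theorem e_X (u : V) : e (X u) = fw u := by
  have : e (X u) = aeval fw (X u) := rfl
  rw [this, aeval_X]

theorem e_homog (u : V) : (e (X u)).IsHomogeneous 1 := by
  rw [e_X, fw]
  have hX : ∀ v : V, (X v : MvPolynomial V ℝ).IsHomogeneous 1 := fun v => isHomogeneous_X ℝ v
  split_ifs
  · exact (hX u).sub (((hX _).add (hX _)).add (hX _))
  · exact hX u

/-- `s_ij = ∑_{k, l} x_ijkl` -/
noncomputable def s (i j : Fin 2) : MvPolynomial V ℝ := X ![i, j, 0, 0] + rest i j

theorem e_s (i j : Fin 2) : e (s i j) = X ![i, j, 0, 0] := by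
  have h1 : e (rest i j) = rest i j := by
    have : e (rest i j) = aeval fw (rest i j) := rfl
    rw [this, fw_rest]
  rw [s, map_add, h1, e_X, fw]
  simp

/-- the quadric after the change of variables -/
noncomputable def q' : MvPolynomial V ℝ :=
  X ![0, 0, 0, 0] * X ![1, 1, 0, 0] - X ![0, 1, 0, 0] * X ![1, 0, 0, 0]

/-- the target variables -/
abbrev W : Type := Fin 2 ⊕ (Fin 2 ⊕ V)

/-- exponents of the images of the variables -/
noncomputable def tau (u : V) : W →₀ ℕ :=
  if u 2 = 0 ∧ u 3 = 0 then Finsupp.single (Sum.inl (u 0)) 1 +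
    Finsupp.single (Sum.inr (Sum.inl (u 1))) 1 else Finsupp.single (Sum.inr (Sum.inr u)) 1

noncomputable def sigma : MvPolynomial V ℝ →ₐ[ℝ] MvPolynomial W ℝ :=
  aeval fun u => monomial (tau u) 1

noncomputable def T (m : V →₀ ℕ) : W →₀ ℕ := ∑ u, m u • tau u

theorem sigma_monomial (m : V →₀ ℕ) (c : ℝ) : sigma (monomial m c) = monomial (T m) c := by
  rw [sigma, aeval_monomial, Finsupp.prod_fintype _ _ (fun _ => pow_zero _)]
  simp only [monomial_pow, one_pow]
  rw [T]
  have h : ∀ t : Finset V, ∏ i ∈ t, (monomial (m i • tau i) (1 : ℝ)) =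
      monomial (∑ i ∈ t, m i • tau i) 1 := by
    intro t
    classical
    induction t using Finset.induction_on with
    | empty => simp
    | insert a t ha ih => rw [Finset.prod_insert ha, Finset.sum_insert ha, ih, monomial_mul,
        one_mul]
  rw [h, MvPolynomial.algebraMap_eq, C_mul_monomial, mul_one]

theorem sigma_q' : sigma q' = 0 := by
  simp only [q', map_sub, map_mul, sigma, aeval_X, monomial_mul]
  have h1 : tau ![0, 0, 0, 0] + tau ![1, 1, 0, 0] = tau ![0, 1, 0, 0] + tau ![1, 0, 0, 0] := by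
    simp only [tau]
    ext t
    simp
    ring
  rw [h1, sub_self]

theorem T_apply_other (m : V →₀ ℕ) (v : V) (hv : ¬ (v 2 = 0 ∧ v 3 = 0)) :
    T m (Sum.inr (Sum.inr v)) = m v := by
  rw [T, Finsupp.finsetSum_apply, Finset.sum_eq_single v]
  · simp [tau, hv]
  · intro u _ hu
    simp only [Finsupp.smul_apply, tau]
    split_ifs with h
    · simp
    · simp [Finsupp.single_apply, hu]
  · intro h; exact absurd (Finset.mem_univ v) h

theorem sum_block (g : V → ℕ) (hg : ∀ u, ¬ (u 2 = 0 ∧ u 3 = 0) → g u = 0) :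
    ∑ u, g u = g ![0, 0, 0, 0] + g ![0, 1, 0, 0] + g ![1, 0, 0, 0] + g ![1, 1, 0, 0] := by
  have h1 : ∑ u, g u = ∑ u ∈ ({![0, 0, 0, 0], ![0, 1, 0, 0], ![1, 0, 0, 0], ![1, 1, 0, 0]} :
      Finset V), g u := by
    symm
    apply Finset.sum_subset (Finset.subset_univ _)
    intro u _ hu
    apply hg
    intro h
    apply hu
    revert h hu
    revert u
    decide
  rw [h1, Finset.sum_insert (by decide), Finset.sum_insert (by decide),
    Finset.sum_insert (by decide), Finset.sum_singleton]
  ring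

theorem T_apply_inl (m : V →₀ ℕ) (i : Fin 2) :
    T m (Sum.inl i) = m ![i, 0, 0, 0] + m ![i, 1, 0, 0] := by
  rw [T, Finsupp.finsetSum_apply, sum_block]
  · fin_cases i <;> simp [tau, Finsupp.single_apply]
  · intro u hu
    simp [tau, hu]

theorem T_apply_inr (m : V →₀ ℕ) (j : Fin 2) :
    T m (Sum.inr (Sum.inl j)) = m ![0, j, 0, 0] + m ![1, j, 0, 0] := by
  rw [T, Finsupp.finsetSum_apply, sum_block]
  · fin_cases j <;> simp [tau, Finsupp.single_apply]
  · intro u hu
    simp [tau, hu]

theorem monomial_pair (m : V →₀ ℕ) (a b : V) (k : ℕ) :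
    (monomial (m + k • (Finsupp.single a 1 + Finsupp.single b 1)) 1 : MvPolynomial V ℝ) =
      monomial m 1 * (X a * X b) ^ k := by
  have h1 : (X a * X b : MvPolynomial V ℝ) =
      monomial (Finsupp.single a 1 + Finsupp.single b 1) 1 := by
    rw [X, X, monomial_mul, one_mul]
  rw [h1, monomial_pow, monomial_mul, one_pow, one_mul]

theorem diff_mem_aux (m m' : V →₀ ℕ) (h : T m = T m')
    (hle : m ![0, 0, 0, 0] ≤ m' ![0, 0, 0, 0]) :
    (monomial m 1 - monomial m' 1 : MvPolynomial V ℝ) ∈ Ideal.span {q'} := by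
  have ho : ∀ v : V, ¬ (v 2 = 0 ∧ v 3 = 0) → m v = m' v := by
    intro v hv
    have := DFunLike.congr_fun h (Sum.inr (Sum.inr v))
    rwa [T_apply_other m v hv, T_apply_other m' v hv] at this
  have h0 := DFunLike.congr_fun h (Sum.inl 0)
  have h1 := DFunLike.congr_fun h (Sum.inl 1)
  have h2 := DFunLike.congr_fun h (Sum.inr (Sum.inl 0))
  have h3 := DFunLike.congr_fun h (Sum.inr (Sum.inl 1))
  rw [T_apply_inl, T_apply_inl] at h0 h1
  rw [T_apply_inr, T_apply_inr] at h2 h3
  obtain ⟨k, hk⟩ : ∃ k, m' ![0, 0, 0, 0] = m ![0, 0, 0, 0] + k := ⟨_, (Nat.add_sub_of_le hle).symm⟩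
  obtain ⟨m'', hm''⟩ : ∃ m'' : V →₀ ℕ, m'' = m - k • (Finsupp.single ![0, 1, 0, 0] 1 +
    Finsupp.single ![1, 0, 0, 0] 1) := ⟨_, rfl⟩
  have e1 : m = m'' + k • (Finsupp.single ![0, 1, 0, 0] 1 + Finsupp.single ![1, 0, 0, 0] 1) := by
    rw [hm'']
    ext u
    simp only [Finsupp.add_apply, Finsupp.smul_apply, Finsupp.tsub_apply, Finsupp.single_apply,
      smul_eq_mul]
    by_cases hu1 : ![0, 1, 0, 0] = u
    · subst hu1
      rw [if_pos rfl, if_neg (by decide)]
      omega
    · by_cases hu2 : ![1, 0, 0, 0] = u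
      · subst hu2
        rw [if_neg (by decide), if_pos rfl]
        omega
      · rw [if_neg hu1, if_neg hu2]
        omega
  have e2 : m' = m'' + k • (Finsupp.single ![0, 0, 0, 0] 1 + Finsupp.single ![1, 1, 0, 0] 1) := by
    rw [hm'']
    ext u
    simp only [Finsupp.add_apply, Finsupp.smul_apply, Finsupp.tsub_apply, Finsupp.single_apply,
      smul_eq_mul]
    by_cases hb : u 2 = 0 ∧ u 3 = 0
    · have hu4 : u = ![0, 0, 0, 0] ∨ u = ![0, 1, 0, 0] ∨ u = ![1, 0, 0, 0] ∨
          u = ![1, 1, 0, 0] := by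
        revert hb
        revert u
        decide
      rcases hu4 with rfl | rfl | rfl | rfl
      · rw [if_neg (by decide), if_neg (by decide), if_pos rfl, if_neg (by decide)]
        omega
      · rw [if_pos rfl, if_neg (by decide), if_neg (by decide), if_neg (by decide)]
        omega
      · rw [if_neg (by decide), if_pos rfl, if_neg (by decide), if_neg (by decide)]
        omega
      · rw [if_neg (by decide), if_neg (by decide), if_neg (by decide), if_pos rfl]
        omega
    · have h5 := ho u hb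
      have n1 : ![0, 1, 0, 0] ≠ u := by rintro rfl; exact hb (by decide)
      have n2 : ![1, 0, 0, 0] ≠ u := by rintro rfl; exact hb (by decide)
      have n3 : ![0, 0, 0, 0] ≠ u := by rintro rfl; exact hb (by decide)
      have n4 : ![1, 1, 0, 0] ≠ u := by rintro rfl; exact hb (by decide)
      rw [if_neg n1, if_neg n2, if_neg n3, if_neg n4]
      omega
  rw [e1, e2, monomial_pair, monomial_pair, ← mul_sub]
  apply Ideal.mul_mem_left
  rw [Ideal.mem_span_singleton]
  refine dvd_trans ?_ (sub_dvd_pow_sub_pow (X ![0, 1, 0, 0] * X ![1, 0, 0, 0] :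
    MvPolynomial V ℝ) (X ![0, 0, 0, 0] * X ![1, 1, 0, 0]) k)
  rw [q', ← neg_dvd, neg_sub]

theorem diff_mem (m m' : V →₀ ℕ) (h : T m = T m') :
    (monomial m 1 - monomial m' 1 : MvPolynomial V ℝ) ∈ Ideal.span {q'} := by
  rcases le_total (m ![0, 0, 0, 0]) (m' ![0, 0, 0, 0]) with hle | hle
  · exact diff_mem_aux m m' h hle
  · have := diff_mem_aux m' m h.symm hle
    rw [← neg_sub]
    exact (Ideal.span {q'}).neg_mem this

theorem ker_sigma : RingHom.ker sigma = Ideal.span {q'} := by
  apply le_antisymm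
  · intro f hf
    rw [RingHom.mem_ker] at hf
    classical
    let r : (W →₀ ℕ) → (MvPolynomial V ℝ ⧸ Ideal.span {q'}) := fun t =>
      if h : ∃ m, T m = t then Ideal.Quotient.mk _ (monomial h.choose 1) else 0
    have hr : ∀ m, r (T m) = Ideal.Quotient.mk (Ideal.span {q'}) (monomial m 1) := by
      intro m
      have h : ∃ m', T m' = T m := ⟨m, rfl⟩
      simp only [r, dif_pos h]
      rw [Ideal.Quotient.eq]
      exact diff_mem _ _ h.choose_spec
    let R : MvPolynomial W ℝ →ₗ[ℝ] (MvPolynomial V ℝ ⧸ Ideal.span {q'}) :=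
      (basisMonomials W ℝ).constr ℝ r
    have hR : ∀ (t : W →₀ ℕ) (c : ℝ), R (monomial t c) = c • r t := by
      intro t c
      have h1 : (monomial t c : MvPolynomial W ℝ) = c • basisMonomials W ℝ t := by
        rw [coe_basisMonomials, smul_monomial, smul_eq_mul, mul_one]
      rw [h1, map_smul]
      congr 1
      exact (basisMonomials W ℝ).constr_basis ℝ r t
    have key : ∀ g : MvPolynomial V ℝ, R (sigma g) = Ideal.Quotient.mk (Ideal.span {q'}) g := by
      intro g
      induction g using MvPolynomial.induction_on' with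
      | monomial u a =>
        rw [sigma_monomial, hR, hr]
        have : (monomial u a : MvPolynomial V ℝ) = a • monomial u 1 := by
          rw [smul_monomial, smul_eq_mul, mul_one]
        rw [this]
        rfl
      | add p q hp hq => rw [map_add, map_add, map_add, hp, hq]
    have h1 := key f
    rw [hf, map_zero] at h1
    exact Ideal.Quotient.eq_zero_iff_mem.1 h1.symm
  · rw [Ideal.span_le, Set.singleton_subset_iff, SetLike.mem_coe, RingHom.mem_ker]
    exact sigma_q'

section values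

variable (x : V → ℝ)

/-- `x_ijk+` -/
def y (i j k : Fin 2) : ℝ := x ![i, j, k, 0] + x ![i, j, k, 1]

/-- `x_ij++` -/
def t (i j : Fin 2) : ℝ := y x i j 0 + y x i j 1

/-- the sum of all entries -/
def tot : ℝ := t x 0 0 + t x 0 1 + t x 1 0 + t x 1 1

/-- the value of `z` -/
noncomputable def zv : ℝ := Real.sqrt (Real.sqrt (tot x))

/-- the values of the parameters -/
noncomputable def pv (j : Fin 4) (u : V) : ℝ :=
  if j = 0 then (t x (u 0) 0 + t x (u 0) 1) / tot x * zv x
  else if j = 1 then (t x 0 (u 1) + t x 1 (u 1)) / tot x * zv x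
  else if j = 2 then y x (u 0) (u 1) (u 2) / t x (u 0) (u 1) * zv x
  else x u / y x (u 0) (u 1) (u 2) * zv x

variable {x} (hx : ∀ u, 0 < x u)

include hx

theorem y_pos (i j k : Fin 2) : 0 < y x i j k := add_pos (hx _) (hx _)

theorem t_pos (i j : Fin 2) : 0 < t x i j := add_pos (y_pos hx _ _ _) (y_pos hx _ _ _)

theorem tot_pos : 0 < tot x := by
  have := t_pos hx
  exact add_pos (add_pos (add_pos (this _ _) (this _ _)) (this _ _)) (this _ _)

theorem zv_pow : zv x ^ 4 = tot x := by
  have h1 := (tot_pos hx).le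
  have h2 : zv x ^ 4 = (zv x ^ 2) ^ 2 := by ring
  rw [h2, zv, Real.sq_sqrt (Real.sqrt_nonneg _), Real.sq_sqrt h1]

theorem prod_pv (hd : t x 0 0 * t x 1 1 = t x 0 1 * t x 1 0) (u : V) :
    pv x 0 u * pv x 1 u * pv x 2 u * pv x 3 u = x u := by
  have h1 := (tot_pos hx).ne'
  have h2 := (t_pos hx (u 0) (u 1)).ne'
  have h3 := (y_pos hx (u 0) (u 1) (u 2)).ne'
  have key : ∀ i j : Fin 2, (t x i 0 + t x i 1) * (t x 0 j + t x 1 j) = tot x * t x i j := by
    intro i j
    fin_cases i <;> fin_cases j <;> simp only [tot, Fin.zero_eta, Fin.mk_one, Fin.isValue]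
    · linear_combination -hd
    · linear_combination hd
    · linear_combination hd
    · linear_combination -hd
  have h4 := key (u 0) (u 1)
  have h5 := zv_pow hx
  have e0 : pv x 0 u = (t x (u 0) 0 + t x (u 0) 1) / tot x * zv x := rfl
  have e1 : pv x 1 u = (t x 0 (u 1) + t x 1 (u 1)) / tot x * zv x := rfl
  have e2 : pv x 2 u = y x (u 0) (u 1) (u 2) / t x (u 0) (u 1) * zv x := rfl
  have e3 : pv x 3 u = x u / y x (u 0) (u 1) (u 2) * zv x := rfl
  rw [e0, e1, e2, e3]
  have h6 : (t x (u 0) 0 + t x (u 0) 1) / tot x * zv x *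
      ((t x 0 (u 1) + t x 1 (u 1)) / tot x * zv x) *
      (y x (u 0) (u 1) (u 2) / t x (u 0) (u 1) * zv x) *
      (x u / y x (u 0) (u 1) (u 2) * zv x) =
      ((t x (u 0) 0 + t x (u 0) 1) * (t x 0 (u 1) + t x 1 (u 1))) * zv x ^ 4 /
        (tot x ^ 2 * t x (u 0) (u 1)) * x u * (y x (u 0) (u 1) (u 2) / y x (u 0) (u 1) (u 2)) := by
    ring
  rw [h6, h4, h5, div_self h3]
  field_simp

end values

/-- an extension of a state of `j` and of its parents to a joint state -/
def full (j : Fin 4) (k : Fin 2) (a : G.ParentState j) : V := fun p =>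
  if p = j then k else if h : p < j ∧ ¬ (p = 0 ∧ j = 1) then a ⟨p, h⟩ else 0

theorem full_self (j : Fin 4) (k : Fin 2) (a : G.ParentState j) : full j k a j = k := by
  simp [full]

theorem full_of_ne (j p : Fin 4) (hp : p ≠ j) (k k' : Fin 2) (a : G.ParentState j) :
    full j k a p = full j k' a p := by
  simp [full, hp]

theorem pv_congr (x : V → ℝ) (j : Fin 4) (u v : V) (hj : u j = v j)
    (h : ∀ p, p < j ∧ ¬ (p = 0 ∧ j = 1) → u p = v p) : pv x j u = pv x j v := by
  fin_cases j
  · have h0 : u 0 = v 0 := hj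
    simp [pv, h0]
  · have h1 : u 1 = v 1 := hj
    simp [pv, h1]
  · have h0 : u 0 = v 0 := h 0 (by decide)
    have h1 : u 1 = v 1 := h 1 (by decide)
    have h2 : u 2 = v 2 := hj
    simp [pv, h0, h1, h2]
  · have h0 : u 0 = v 0 := h 0 (by decide)
    have h1 : u 1 = v 1 := h 1 (by decide)
    have h2 : u 2 = v 2 := h 2 (by decide)
    have h3 : u 3 = v 3 := hj
    have : u = v := by
      ext p
      fin_cases p
      · exact congrArg _ h0
      · exact congrArg _ h1
      · exact congrArg _ h2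
      · exact congrArg _ h3
    rw [this]

theorem pv_full (x : V → ℝ) (j : Fin 4) (u : V) :
    pv x j (full j (u j) (fun p => u p.1)) = pv x j u := by
  apply pv_congr
  · exact full_self _ _ _
  · intro p hp
    have : p ≠ j := hp.1.ne
    simp [full, this, hp]

theorem sum_pv {x : V → ℝ} (hx : ∀ u, 0 < x u) (j : Fin 4) (a : G.ParentState j) :
    pv x j (full j 0 a) + pv x j (full j 1 a) = zv x := by
  have h1 := (tot_pos hx).ne'
  fin_cases j
  · have e0 : full 0 0 a 0 = 0 := full_self _ _ _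
    have e1 : full 0 1 a 0 = 1 := full_self _ _ _
    have : pv x 0 (full 0 0 a) + pv x 0 (full 0 1 a) =
      (t x 0 0 + t x 0 1) / tot x * zv x + (t x 1 0 + t x 1 1) / tot x * zv x := by
      simp only [pv, e0, e1, if_true]
    refine this.trans ?_
    rw [← add_mul, ← add_div]
    have h2 : t x 0 0 + t x 0 1 + (t x 1 0 + t x 1 1) = tot x := by rw [tot]; ring
    rw [h2, div_self h1, one_mul]
  · have e0 : full 1 0 a 1 = 0 := full_self _ _ _
    have e1 : full 1 1 a 1 = 1 := full_self _ _ _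
    have : pv x 1 (full 1 0 a) + pv x 1 (full 1 1 a) =
      (t x 0 0 + t x 1 0) / tot x * zv x + (t x 0 1 + t x 1 1) / tot x * zv x := by
      simp [pv, e0, e1]
    refine this.trans ?_
    rw [← add_mul, ← add_div]
    have h2 : t x 0 0 + t x 1 0 + (t x 0 1 + t x 1 1) = tot x := by rw [tot]; ring
    rw [h2, div_self h1, one_mul]
  · have e0 : full 2 0 a 2 = 0 := full_self _ _ _
    have e1 : full 2 1 a 2 = 1 := full_self _ _ _
    have e2 : full 2 1 a 0 = full 2 0 a 0 := full_of_ne _ _ (by decide) _ _ _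
    have e3 : full 2 1 a 1 = full 2 0 a 1 := full_of_ne _ _ (by decide) _ _ _
    have h2 := (t_pos hx (full 2 0 a 0) (full 2 0 a 1)).ne'
    have : pv x 2 (full 2 0 a) + pv x 2 (full 2 1 a) =
      y x (full 2 0 a 0) (full 2 0 a 1) 0 / t x (full 2 0 a 0) (full 2 0 a 1) * zv x +
      y x (full 2 0 a 0) (full 2 0 a 1) 1 / t x (full 2 0 a 0) (full 2 0 a 1) * zv x := by
      simp [pv, e0, e1, e2, e3]
    refine this.trans ?_
    rw [← add_mul, ← add_div]
    have h3 : y x (full 2 0 a 0) (full 2 0 a 1) 0 + y x (full 2 0 a 0) (full 2 0 a 1) 1 =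
      t x (full 2 0 a 0) (full 2 0 a 1) := rfl
    rw [h3, div_self h2, one_mul]
  · have e0 : full 3 0 a 3 = 0 := full_self _ _ _
    have e1 : full 3 1 a 3 = 1 := full_self _ _ _
    have e2 : full 3 1 a 0 = full 3 0 a 0 := full_of_ne _ _ (by decide) _ _ _
    have e3 : full 3 1 a 1 = full 3 0 a 1 := full_of_ne _ _ (by decide) _ _ _
    have e4 : full 3 1 a 2 = full 3 0 a 2 := full_of_ne _ _ (by decide) _ _ _
    have h2 := (y_pos hx (full 3 0 a 0) (full 3 0 a 1) (full 3 0 a 2)).ne'
    have e5 : full 3 0 a = ![full 3 0 a 0, full 3 0 a 1, full 3 0 a 2, 0] := by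
      funext p
      fin_cases p
      · rfl
      · rfl
      · rfl
      · exact e0
    have e6 : full 3 1 a = ![full 3 0 a 0, full 3 0 a 1, full 3 0 a 2, 1] := by
      funext p
      fin_cases p
      · exact e2
      · exact e3
      · exact e4
      · exact e1
    have : pv x 3 (full 3 0 a) + pv x 3 (full 3 1 a) =
      x (full 3 0 a) / y x (full 3 0 a 0) (full 3 0 a 1) (full 3 0 a 2) * zv x +
      x (full 3 1 a) / y x (full 3 0 a 0) (full 3 0 a 1) (full 3 0 a 2) * zv x := by
      simp [pv, e2, e3, e4]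
    refine this.trans ?_
    rw [← add_mul, ← add_div]
    have h3 : x (full 3 0 a) + x (full 3 1 a) =
      y x (full 3 0 a 0) (full 3 0 a 1) (full 3 0 a 2) := by
      rw [y, ← e5, ← e6]
    rw [h3, div_self h2, one_mul]

theorem vanish {x : V → ℝ} (hx : ∀ u, 0 < x u) (hd : t x 0 0 * t x 1 1 = t x 0 1 * t x 1 0)
    (f : MvPolynomial V ℝ) (hf : f ∈ G.primeIdeal) : aeval x f = 0 := by
  let val : Option G.Param → ℝ := fun o => match o with
    | none => zv x
    | some p => pv x p.1 (full p.1 p.2.1 p.2.2)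
  let g : G.ParamRing →ₐ[ℝ] ℝ := aeval val
  have hJ : ∀ r ∈ G.sumIdeal, g r = 0 := by
    intro r hr
    have : G.sumIdeal ≤ RingHom.ker g := by
      rw [BayesNet.sumIdeal, Ideal.span_le]
      rintro _ ⟨j, a, rfl⟩
      rw [SetLike.mem_coe, RingHom.mem_ker, map_sub, map_sum]
      have h1 : ∀ k : Fin (G.κ j), g (X (some ⟨j, k, a⟩)) = pv x j (full j k a) := by
        intro k
        exact aeval_X _ _
      have h2 : g (X none) = zv x := aeval_X _ _
      rw [h2, Finset.sum_congr rfl (fun k _ => h1 k), sub_eq_zero]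
      exact (Fin.sum_univ_two _).trans (sum_pv hx j a)
    exact (RingHom.mem_ker).1 (this hr)
  let g' : (G.ParamRing ⧸ G.sumIdeal) →ₐ[ℝ] ℝ := Ideal.Quotient.liftₐ G.sumIdeal g hJ
  have hc : g'.comp G.phi = aeval x := by
    apply MvPolynomial.algHom_ext
    intro u
    refine Eq.trans ?_ (aeval_X x u).symm
    rw [AlgHom.comp_apply]
    have h1 : G.phi (X u) = Ideal.Quotient.mk G.sumIdeal (G.paramMonomial u) := aeval_X _ _
    have h2 : g' (Ideal.Quotient.mk G.sumIdeal (G.paramMonomial u)) = g (G.paramMonomial u) := rfl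
    rw [h1, h2, BayesNet.paramMonomial, map_prod]
    have h3 : ∀ j : Fin 4, g (X (some ⟨j, u j, fun i => u i.1⟩)) = pv x j u := by
      intro j
      exact (aeval_X _ _).trans (pv_full x j u)
    rw [Finset.prod_congr rfl (fun j _ => h3 j), Fin.prod_univ_four]
    exact prod_pv hx hd u
  have h0 : G.phi f = 0 := hf
  have h1 : aeval x f = g' (G.phi f) := by
    rw [← hc]
    rfl
  rw [h1, h0, map_zero]

/-- the point with parameters `w` -/
noncomputable def xw (w : W → ℝ) (u : V) : ℝ :=
  if u 2 = 0 ∧ u 3 = 0 then w (Sum.inl (u 0)) * w (Sum.inr (Sum.inl (u 1))) -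
    (w (Sum.inr (Sum.inr ![u 0, u 1, 0, 1])) + w (Sum.inr (Sum.inr ![u 0, u 1, 1, 0])) +
      w (Sum.inr (Sum.inr ![u 0, u 1, 1, 1])))
  else w (Sum.inr (Sum.inr u))

theorem sigma_X (u : V) : sigma (X u) = if u 2 = 0 ∧ u 3 = 0 then
    X (Sum.inl (u 0)) * X (Sum.inr (Sum.inl (u 1))) else X (Sum.inr (Sum.inr u)) := by
  rw [sigma, aeval_X, tau]
  split_ifs
  · rw [X, X, monomial_mul, one_mul]
  · rfl

theorem eval_sigma_e (w : W → ℝ) (f : MvPolynomial V ℝ) :
    aeval w (sigma (e f)) = aeval (xw w) f := by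
  have : ((aeval w : MvPolynomial W ℝ →ₐ[ℝ] ℝ).comp sigma).comp (e : MvPolynomial V ℝ →ₐ[ℝ] _) =
      aeval (xw w) := by
    apply MvPolynomial.algHom_ext
    intro u
    rw [AlgHom.comp_apply, AlgHom.comp_apply, aeval_X]
    have h1 : (e : MvPolynomial V ℝ →ₐ[ℝ] MvPolynomial V ℝ) (X u) = fw u := e_X u
    rw [h1, fw, xw]
    split_ifs with hu
    · simp only [rest, map_sub, map_add, sigma_X]
      rw [if_pos hu, if_neg (by simp), if_neg (by simp), if_neg (by simp),
        map_mul, aeval_X, aeval_X, aeval_X, aeval_X, aeval_X]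
    · rw [sigma_X, if_neg hu, aeval_X]
  rw [← this]
  rfl

theorem primeIdeal_le (f : MvPolynomial V ℝ) (hf : f ∈ G.primeIdeal) : sigma (e f) = 0 := by
  apply MvPolynomial.funext_set (fun o : W => match o with
    | Sum.inl _ => Set.Ioo (1 : ℝ) 2
    | Sum.inr (Sum.inl _) => Set.Ioo (1 : ℝ) 2
    | Sum.inr (Sum.inr _) => Set.Ioo (0 : ℝ) (1 / 10))
  · rintro (i | i | i)
    · exact Set.Ioo_infinite (by norm_num)
    · exact Set.Ioo_infinite (by norm_num)
    · exact Set.Ioo_infinite (by norm_num)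
  · intro w hw
    have ha : ∀ i, w (Sum.inl i) ∈ Set.Ioo (1 : ℝ) 2 := fun i => hw (Sum.inl i) trivial
    have hb : ∀ i, w (Sum.inr (Sum.inl i)) ∈ Set.Ioo (1 : ℝ) 2 :=
      fun i => hw (Sum.inr (Sum.inl i)) trivial
    have hc : ∀ i, w (Sum.inr (Sum.inr i)) ∈ Set.Ioo (0 : ℝ) (1 / 10) :=
      fun i => hw (Sum.inr (Sum.inr i)) trivial
    rw [map_zero, ← aeval_eq_eval]
    have hx : ∀ u, 0 < xw w u := by
      intro u
      rw [xw]
      split_ifs with hu
      · have h1 := (ha (u 0)).1
        have h2 := (hb (u 1)).1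
        have h3 := (hc ![u 0, u 1, 0, 1]).2
        have h4 := (hc ![u 0, u 1, 1, 0]).2
        have h5 := (hc ![u 0, u 1, 1, 1]).2
        nlinarith
      · exact (hc u).1
    have ht : ∀ i j, t (xw w) i j = w (Sum.inl i) * w (Sum.inr (Sum.inl j)) := by
      intro i j
      simp [t, y, xw]
      ring
    have := vanish hx (by rw [ht, ht, ht, ht]; ring) f hf
    rw [← eval_sigma_e] at this
    exact this

/-- the class of a parameter -/
noncomputable def th (j : Fin 4) (u : V) : G.ParamRing ⧸ G.sumIdeal :=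
  Ideal.Quotient.mk G.sumIdeal (X (some ⟨j, u j, fun p => u p.1⟩))

theorem th_congr (j : Fin 4) (u v : V) (hj : u j = v j)
    (h : ∀ p, p < j ∧ ¬ (p = 0 ∧ j = 1) → u p = v p) : th j u = th j v := by
  have h1 : (fun p : {p // G.E p j} => u p.1) = fun p => v p.1 := funext fun p => h p.1 p.2
  rw [th, th, h1, hj]

/-- the class of `z` -/
noncomputable def Z : G.ParamRing ⧸ G.sumIdeal := Ideal.Quotient.mk G.sumIdeal (X none)

theorem th_sum (j : Fin 4) (u v : V) (h0 : u j = 0) (h1 : v j = 1)
    (h : ∀ p, p < j ∧ ¬ (p = 0 ∧ j = 1) → u p = v p) : th j u + th j v = Z := by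
  have h2 : (fun p : {p // G.E p j} => u p.1) = fun p => v p.1 := funext fun p => h p.1 p.2
  have hmem : (∑ l : Fin 2, X (some ⟨j, l, fun p => v p.1⟩) - X none : G.ParamRing) ∈
      G.sumIdeal := Ideal.subset_span ⟨j, _, rfl⟩
  rw [th, th, Z, h2, h0, h1, ← map_add, Ideal.Quotient.eq]
  rw [Fin.sum_univ_two] at hmem
  exact hmem

theorem phi_X (u : V) : G.phi (X u) = th 0 u * th 1 u * th 2 u * th 3 u := by
  have h1 : G.phi (X u) = Ideal.Quotient.mk G.sumIdeal (G.paramMonomial u) := aeval_X _ _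
  rw [h1, BayesNet.paramMonomial, map_prod]
  exact Fin.prod_univ_four _

theorem phi_s (i j : Fin 2) : G.phi (s i j) = th 0 ![i, 0, 0, 0] * th 1 ![0, j, 0, 0] * Z ^ 2 := by
  have a : ∀ k l, th 0 ![i, j, k, l] = th 0 ![i, 0, 0, 0] := by
    intro k l
    apply th_congr
    · rfl
    · intro p hp
      exact absurd hp.1 (by simp)
  have b : ∀ k l, th 1 ![i, j, k, l] = th 1 ![0, j, 0, 0] := by
    intro k l
    apply th_congr
    · rfl
    · intro p hp
      have : p = 0 := by
        have := hp.1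
        omega
      exact absurd ⟨this, rfl⟩ hp.2
  have c : ∀ k l, th 2 ![i, j, k, l] = th 2 ![i, j, k, 0] := by
    intro k l
    apply th_congr
    · rfl
    · intro p hp
      have h1 := hp.1
      fin_cases p
      · rfl
      · rfl
      · exact absurd h1 (by decide)
      · exact absurd h1 (by decide)
  have d : ∀ k, th 3 ![i, j, k, 0] + th 3 ![i, j, k, 1] = Z := by
    intro k
    apply th_sum
    · rfl
    · rfl
    · intro p hp
      have h1 := hp.1
      fin_cases p
      · rfl
      · rfl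
      · rfl
      · exact absurd h1 (by decide)
  have f : th 2 ![i, j, 0, 0] + th 2 ![i, j, 1, 0] = Z := by
    apply th_sum
    · rfl
    · rfl
    · intro p hp
      have h1 := hp.1
      fin_cases p
      · rfl
      · rfl
      · exact absurd h1 (by decide)
      · exact absurd h1 (by decide)
  have hs : G.phi (s i j) = G.phi (X ![i, j, 0, 0]) + (G.phi (X ![i, j, 0, 1]) +
      G.phi (X ![i, j, 1, 0]) + G.phi (X ![i, j, 1, 1])) := by
    rw [s, rest, map_add, map_add, map_add]
  rw [hs, phi_X, phi_X, phi_X, phi_X, a, a, a, a, b, b, b, b, c 0 1, c 1 1]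
  linear_combination th 0 ![i, 0, 0, 0] * th 1 ![0, j, 0, 0] * th 2 ![i, j, 0, 0] * d 0 +
    th 0 ![i, 0, 0, 0] * th 1 ![0, j, 0, 0] * th 2 ![i, j, 1, 0] * d 1 +
    th 0 ![i, 0, 0, 0] * th 1 ![0, j, 0, 0] * Z * f

theorem det_mem : s 0 0 * s 1 1 - s 0 1 * s 1 0 ∈ G.primeIdeal := by
  have h : G.phi (s 0 0 * s 1 1 - s 0 1 * s 1 0) = 0 := by
    rw [map_sub, map_mul, map_mul, phi_s, phi_s, phi_s, phi_s]
    ring
  exact h

theorem map_primeIdeal : G.primeIdeal.map (RingHomClass.toRingHom e) = Ideal.span {q'} := by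
  apply le_antisymm
  · rw [Ideal.map_le_iff_le_comap]
    intro f hf
    rw [Ideal.mem_comap, ← ker_sigma, RingHom.mem_ker]
    exact primeIdeal_le f hf
  · rw [Ideal.span_le, Set.singleton_subset_iff, SetLike.mem_coe]
    have h1 : q' = RingHomClass.toRingHom e (s 0 0 * s 1 1 - s 0 1 * s 1 0) := by
      have : RingHomClass.toRingHom e (s 0 0 * s 1 1 - s 0 1 * s 1 0) =
        e (s 0 0 * s 1 1 - s 0 1 * s 1 0) := rfl
      rw [this, map_sub, map_mul, map_mul, e_s, e_s, e_s, e_s, q']
    rw [h1]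
    exact Ideal.mem_map_of_mem _ det_mem

theorem q'_binomial : ∃ a b : V →₀ ℕ, q' = monomial a 1 - monomial b 1 := by
  refine ⟨Finsupp.single ![0, 0, 0, 0] 1 + Finsupp.single ![1, 1, 0, 0] 1,
    Finsupp.single ![0, 1, 0, 0] 1 + Finsupp.single ![1, 0, 0, 0] 1, ?_⟩
  rw [q', X, X, X, X, monomial_mul, monomial_mul, one_mul]

theorem G_toric : G.IsToric := by
  refine ⟨e, e_homog, ?_⟩
  have h : G.primeIdeal.map (RingHomClass.toRingHom e) = Ideal.span {q'} := map_primeIdeal
  rw [h]
  refine ⟨?_, {q'}, rfl, ?_⟩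
  · rw [← ker_sigma]
    exact RingHom.ker_isPrime _
  · rintro f rfl
    exact q'_binomial

theorem G_not_perfect : ¬ G.NonSinkPerfect := by
  intro h
  have := h 0 1 2 ⟨3, by decide⟩ ⟨3, by decide⟩ ⟨3, by decide⟩ (by decide) (by decide) (by decide)
  revert this
  decide

/-- There is a toric Bayesian network whose non-sink subgraph is not perfect. -/
theorem result : ¬ ∀ (n : ℕ) (G : BayesNet n), G.IsToric → G.NonSinkPerfect :=
  fun h => G_not_perfect (h 4 G G_toric)

end Pool.Agent.Results.MP_52d0c2_ag.ToricNotPerfect
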